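import Mathlib
import Pool.Agent.H12R3.VR.Stmts

set_option autoImplicit false

/-! Task T21 (TaskRayForm) of project H12-VR: normal form of the maps which preserve a ray. -/

namespace Pool.Agent.H830R3.VR

open Filter Topology Set H12VR

lemma ray1 (J : Set ℝ) (ho : IsOpen J) (hoc : J.OrdConnected) (hne : J.Nonempty)
    (hnu : J ≠ univ) (L : ℝ) (hL0 : L ≠ 0) (hL1 : |L| < 1) (hinv : ∀ u, u ∈ J ↔ L * u ∈ J) :
    0 < L ∧ (J = Ioi 0 ∨ J = Iio 0) := by
  have hpow : ∀ k : ℕ, ∀ u, u ∈ J ↔ L ^ k * u ∈ J := by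
    intro k
    induction k with
    | zero => intro u; simp
    | succ k ih =>
      intro u
      rw [ih u, hinv (L ^ k * u), pow_succ']
      rw [mul_assoc]
  have hlim : ∀ u : ℝ, Tendsto (fun k : ℕ => L ^ k * u) atTop (𝓝 0) := by
    intro u
    have := (tendsto_pow_atTop_nhds_zero_of_abs_lt_one hL1).mul_const u
    simpa using this
  have h0 : (0 : ℝ) ∉ J := by
    intro h0
    apply hnu
    rw [eq_univ_iff_forall]
    intro u
    obtain ⟨k, hk⟩ := ((hlim u).eventually (ho.mem_nhds h0)).exists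
    exact (hpow k u).2 hk
  obtain ⟨u0, hu0⟩ := hne
  have hu0' : u0 ≠ 0 := fun h => h0 (h ▸ hu0)
  have hL : 0 < L := by
    rcases lt_or_gt_of_ne hL0 with h | h
    · exfalso
      have h1 := (hinv u0).1 hu0
      rcases lt_or_gt_of_ne hu0' with h2 | h2
      · exact h0 (hoc.out hu0 h1 ⟨h2.le, by nlinarith⟩)
      · exact h0 (hoc.out h1 hu0 ⟨by nlinarith, h2.le⟩)
    · exact h
  refine ⟨hL, ?_⟩
  rcases lt_or_gt_of_ne hu0' with h2 | h2
  · right
    ext v
    rw [mem_Iio]
    constructor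
    · intro hv
      by_contra hv0
      exact h0 (hoc.out hu0 hv ⟨h2.le, not_lt.1 hv0⟩)
    · intro hv
      obtain ⟨k, hk⟩ := ((hlim v).eventually (lt_mem_nhds h2)).exists
      have hkv : L ^ k * v < 0 := mul_neg_of_pos_of_neg (by positivity) hv
      obtain ⟨j, hj⟩ := ((hlim u0).eventually (lt_mem_nhds hkv)).exists
      exact (hpow k v).2 (hoc.out hu0 ((hpow j u0).1 hu0) ⟨hk.le, hj.le⟩)
  · left
    ext v
    rw [mem_Ioi]
    constructor
    · intro hv
      by_contra hv0
      exact h0 (hoc.out hv hu0 ⟨not_lt.1 hv0, h2.le⟩)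
    · intro hv
      obtain ⟨k, hk⟩ := ((hlim v).eventually (gt_mem_nhds h2)).exists
      have hkv : 0 < L ^ k * v := by positivity
      obtain ⟨j, hj⟩ := ((hlim u0).eventually (gt_mem_nhds hkv)).exists
      exact (hpow k v).2 (hoc.out ((hpow j u0).1 hu0) hu0 ⟨hj.le, hk.le⟩)

lemma ray2 (J : Set ℝ) (ho : IsOpen J) (hoc : J.OrdConnected) (hne : J.Nonempty)
    (hnu : J ≠ univ) (L : ℝ) (hL0 : L ≠ 0) (hL1 : L ^ 2 ≠ 1) (hinv : ∀ u, u ∈ J ↔ L * u ∈ J) :
    0 < L ∧ (J = Ioi 0 ∨ J = Iio 0) := by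
  have h1 : |L| ≠ 1 := by
    intro h
    apply hL1
    rw [← sq_abs, h, one_pow]
  rcases lt_or_gt_of_ne h1 with h | h
  · exact ray1 J ho hoc hne hnu L hL0 h hinv
  · have h2 := ray1 J ho hoc hne hnu L⁻¹ (inv_ne_zero hL0) (by
      rw [abs_inv]
      exact inv_lt_one_of_one_lt₀ h) (fun u => by
      rw [hinv (L⁻¹ * u), ← mul_assoc, mul_inv_cancel₀ hL0, one_mul])
    exact ⟨inv_pos.1 h2.1, h2.2⟩

theorem t : H12VR.TaskRayForm := by
  intro f I m n c c' N ho hoc hne hnu hm hf hc hc' hcc hRel hAut hdt himg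
  obtain ⟨hR1, hR2, hR3⟩ := hRel
  obtain ⟨-, hA, -⟩ := hAut
  set L : ℝ := N 0 + N 1 * m with hLd
  set T : ℝ := N 1 * n + N 2 with hTd
  have hax : ∀ x ∈ I, ax N x (f x) = L * x + T := by
    intro x hx
    rw [hf x hx, ax, hLd, hTd]
    ring
  have hmem : ∀ x ∈ I, L * x + T ∈ I := by
    intro x hx
    rw [← hax x hx]
    have h1 : (fun x => ax N x (f x)) x ∈ (fun x => ax N x (f x)) '' I := ⟨x, hx, rfl⟩
    rw [himg] at h1
    exact h1
  have hid : ∀ x ∈ I, m * (L * x + T) + n = (N 3 + N 4 * m) * x + (N 4 * n + N 5) := by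
    intro x hx
    have h1 := hA x
    rw [hax x hx, hf _ (hmem x hx), ay, hf x hx] at h1
    rw [h1]
    ring
  -- two distinct points of I
  obtain ⟨x1, hx1⟩ := hne
  obtain ⟨δ, hδ, hball⟩ := Metric.isOpen_iff.1 ho x1 hx1
  have hx2 : x1 + δ / 2 ∈ I := hball (by
    rw [Metric.mem_ball, Real.dist_eq]
    rw [add_sub_cancel_left, abs_of_pos (by linarith)]
    linarith)
  have e1 := hid x1 hx1
  have e2 := hid _ hx2
  have hB : N 3 + N 4 * m = m * L := by
    have : (N 3 + N 4 * m - m * L) * (δ / 2) = 0 := by linear_combination e1 - e2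
    rcases mul_eq_zero.1 this with h | h
    · linarith
    · linarith
  have hC : N 4 * n + N 5 = m * T + n := by
    rw [hB] at e1
    linear_combination -e1
  -- the eigenvalue
  have hL2 : L ^ 2 * (1 + c' ^ 2 * m ^ 2) = 1 + c ^ 2 * m ^ 2 := by
    have h1 : L ^ 2 * (1 + c' ^ 2 * m ^ 2) = L ^ 2 + c' ^ 2 * (N 3 + N 4 * m) ^ 2 := by
      rw [hB]; ring
    rw [h1, hLd]
    linear_combination hR1 + m ^ 2 * hR2 + 2 * m * hR3
  have hm2 : 0 < m ^ 2 := by positivity
  have hL0 : L ≠ 0 := by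
    intro h
    rw [h] at hL2
    have : 0 ≤ c ^ 2 * m ^ 2 := by positivity
    nlinarith
  have hL1 : L ^ 2 ≠ 1 := by
    intro h
    rw [h] at hL2
    have h1 : (c' - c) * (c' + c) * m ^ 2 = 0 := by linear_combination hL2
    rcases mul_eq_zero.1 h1 with h2 | h2
    · rcases mul_eq_zero.1 h2 with h3 | h3
      · exact hcc (by linarith)
      · linarith
    · exact hm2.ne' h2
  have hL1' : 1 - L ≠ 0 := by
    intro h
    apply hL1
    have : L = 1 := by linarith
    rw [this, one_pow]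
  set s : ℝ := T / (1 - L) with hs
  have hsT : L * s + T = s := by
    rw [hs]
    field_simp
    ring
  have himg' : (fun x => L * x + T) '' I = I := by
    conv_rhs => rw [← himg]
    exact Set.image_congr (fun x hx => (hax x hx).symm)
  let J : Set ℝ := (fun u => s + u) ⁻¹' I
  have hJinv : ∀ u, u ∈ J ↔ L * u ∈ J := by
    intro u
    constructor
    · intro hu
      have h1 := hmem (s + u) hu
      have h2 : L * (s + u) + T = s + L * u := by linear_combination hsT
      rw [h2] at h1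
      exact h1
    · intro hu
      have h1 : s + L * u ∈ (fun x => L * x + T) '' I := by rw [himg']; exact hu
      obtain ⟨x, hx, hxe⟩ := h1
      have h2 : L * (x - (s + u)) = 0 := by
        have : L * x + T = s + L * u := hxe
        linear_combination this - hsT
      rcases mul_eq_zero.1 h2 with h3 | h3
      · exact absurd h3 hL0
      · have h4 : x = s + u := by linarith
        rw [h4] at hx
        exact hx
  have hJ := ray2 J (ho.preimage (by fun_prop)) (by
      constructor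
      intro a ha b hb z hz
      exact hoc.out ha hb ⟨by linarith [hz.1], by linarith [hz.2]⟩) ⟨x1 - s, by
        show s + (x1 - s) ∈ I
        rw [add_sub_cancel]
        exact hx1⟩ (by
      intro h
      apply hnu
      rw [eq_univ_iff_forall] at h ⊢
      intro x
      have h1 : s + (x - s) ∈ I := h (x - s)
      rwa [add_sub_cancel] at h1) L hL0 hL1 hJinv
  obtain ⟨hLpos, hJ2⟩ := hJ
  have hIJ : ∀ x, x ∈ I ↔ x - s ∈ J := by
    intro x
    show x ∈ I ↔ s + (x - s) ∈ I
    rw [add_sub_cancel]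
  have hI : I = Ioi s ∨ I = Iio s := by
    rcases hJ2 with h | h
    · left
      ext x
      rw [hIJ, h, mem_Ioi, mem_Ioi, sub_pos]
    · right
      ext x
      rw [hIJ, h, mem_Iio, mem_Iio, sub_neg]
  set ν : ℝ := N 4 - m * N 1 with hν
  have hdtν : dt N = L * ν := by
    rw [dt, hν]
    have h0 : N 0 = L - N 1 * m := by rw [hLd]; ring
    have h3 : N 3 = m * L - N 4 * m := by linarith
    rw [h0, h3]
    ring
  have hνpos : 0 < ν := by
    rw [hdtν] at hdt
    exact (mul_pos_iff_of_pos_left hLpos).1 hdt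
  have hd2 : c' ^ 2 * dt N ^ 2 = c ^ 2 := by
    rw [dt]
    linear_combination (N 1 ^ 2 + c' ^ 2 * N 4 ^ 2) * hR1 + hR2 -
      (N 0 * N 1 + c' ^ 2 * (N 3 * N 4)) * hR3
  have hd : c' * (L * ν) = c := by
    rw [← hdtν]
    have h1 : (c' * dt N - c) * (c' * dt N + c) = 0 := by linear_combination hd2
    rcases mul_eq_zero.1 h1 with h2 | h2
    · linarith
    · have : 0 < c' * dt N := by positivity
      linarith
  have hcross : L * (N 1 * (1 + c' ^ 2 * m ^ 2) + ν * (c' ^ 2 * m)) = c ^ 2 * m := by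
    have h1 : L * (N 1 * (1 + c' ^ 2 * m ^ 2) + ν * (c' ^ 2 * m)) =
        L * N 1 + c' ^ 2 * ((m * L) * N 4) := by rw [hν]; ring
    rw [h1, ← hB, hLd]
    linear_combination hR3 + m * hR2
  have hμ : L * (N 1 * (1 + c' ^ 2 * m ^ 2)) = c * m * (c - c') := by
    linear_combination hcross - c' * m * hd
  refine ⟨s, hI, L, N 1, ν, hLpos, hνpos, ?_, ?_, ?_⟩
  · intro h
    rw [h] at hμ
    have h1 : c * m * (c - c') = 0 := by linarith
    rcases mul_eq_zero.1 h1 with h2 | h2
    · rcases mul_eq_zero.1 h2 with h3 | h3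
      · exact hc.ne' h3
      · exact hm h3
    · exact hcc (by linarith)
  · have hpos : 0 < L * (1 + c' ^ 2 * m ^ 2) := by positivity
    apply mul_left_cancel₀ hpos.ne'
    linear_combination (c * c' * m ^ 2 - 1) * hμ - c * c' * m * hL2 +
      c * m * (1 + c' ^ 2 * m ^ 2) * hd
  · intro u y
    constructor
    · rw [ax]
      have : N 2 = T - N 1 * n := by rw [hTd]; ring
      rw [this]
      have h0 : N 0 = L - N 1 * m := by rw [hLd]; ring
      rw [h0]
      linear_combination hsT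
    · rw [ay]
      rw [hν]
      linear_combination (s + u) * hB + hC + m * hsT

end Pool.Agent.H830R3.VR
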